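import Mathlib
import Pool.Agent.H37.ATR.Spec

/-!
# ATR: monotonicity of the mean and the variance (MON), existence of the saddle point (EXI)
-/

set_option autoImplicit false

open MeasureTheory Filter Complex Polynomial
open scoped Topology Real

namespace Pool.Agent.H43.ATR

open Pool.Agent.H37.ATR

theorem pp_form {y x : ℝ} (hy : 0 < y) (hx : 0 < x) :
    y * x / (1 + y * x) * (1 - y * x / (1 + y * x)) = y * x / (1 + y * x) ^ 2 := by
  have h : (0 : ℝ) < 1 + y * x := by positivity
  field_simp
  ring

theorem mon : MonSt := by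
  intro r n x x' hx hxx
  have hx' : 0 < x' := lt_of_lt_of_le hx hxx
  refine ⟨?_, ?_, ?_, ?_, ?_⟩
  · unfold L
    apply Finset.sum_le_sum
    intro i _
    have hy := yy_pos r n i
    unfold pp
    rw [div_le_div_iff₀ (by positivity) (by positivity)]
    nlinarith [mul_le_mul_of_nonneg_left hxx hy.le]
  · unfold V
    rw [Finset.mul_sum]
    apply Finset.sum_le_sum
    intro i _
    have hy := yy_pos r n i
    unfold pp
    rw [pp_form hy hx, pp_form hy hx', div_mul_div_comm, div_le_div_iff₀ (by positivity) (by positivity)]
    have h1 : x * (1 + yy r n i * x') ≤ x' * (1 + yy r n i * x) := by nlinarith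
    have h2 : (x * (1 + yy r n i * x')) ^ 2 ≤ (x' * (1 + yy r n i * x)) ^ 2 :=
      pow_le_pow_left₀ (by positivity) h1 2
    nlinarith [mul_le_mul_of_nonneg_left h2 hy.le]
  · unfold V
    rw [Finset.mul_sum]
    apply Finset.sum_le_sum
    intro i _
    have hy := yy_pos r n i
    unfold pp
    rw [pp_form hy hx, pp_form hy hx', div_mul_div_comm, div_le_div_iff₀ (by positivity) (by positivity)]
    have h1 : (1 + yy r n i * x) ≤ (1 + yy r n i * x') := by nlinarith
    have h2 : (1 + yy r n i * x) ^ 2 ≤ (1 + yy r n i * x') ^ 2 :=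
      pow_le_pow_left₀ (by positivity) h1 2
    have h3 : 0 ≤ yy r n i * x' * x := by positivity
    nlinarith [mul_le_mul_of_nonneg_left h2 h3]
  · unfold L V
    rw [Finset.mul_sum, ← Finset.sum_sub_distrib]
    apply Finset.sum_le_sum
    intro i _
    have hy := yy_pos r n i
    unfold pp
    rw [pp_form hy hx]
    have e1 : yy r n i * x' / (1 + yy r n i * x') - yy r n i * x / (1 + yy r n i * x)
        = yy r n i * (x' - x) / ((1 + yy r n i * x) * (1 + yy r n i * x')) := by
      have h1 : (0 : ℝ) < 1 + yy r n i * x := by positivity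
      have h2 : (0 : ℝ) < 1 + yy r n i * x' := by positivity
      field_simp
      ring
    have e2 : (x' / x - 1) * (yy r n i * x / (1 + yy r n i * x) ^ 2)
        = yy r n i * (x' - x) / ((1 + yy r n i * x) * (1 + yy r n i * x)) := by
      have h1 : (0 : ℝ) < 1 + yy r n i * x := by positivity
      field_simp
    rw [e1, e2]
    apply div_le_div_of_nonneg_left
    · exact mul_nonneg hy.le (by linarith)
    · positivity
    · apply mul_le_mul_of_nonneg_left _ (by positivity)
      nlinarith
  · unfold L V
    rw [Finset.mul_sum, ← Finset.sum_sub_distrib]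
    apply Finset.sum_le_sum
    intro i _
    have hy := yy_pos r n i
    unfold pp
    rw [pp_form hy hx']
    have e1 : yy r n i * x' / (1 + yy r n i * x') - yy r n i * x / (1 + yy r n i * x)
        = yy r n i * (x' - x) * x / (x * ((1 + yy r n i * x) * (1 + yy r n i * x'))) := by
      have h1 : (0 : ℝ) < 1 + yy r n i * x := by positivity
      have h2 : (0 : ℝ) < 1 + yy r n i * x' := by positivity
      field_simp
      ring
    have e2 : (x' / x - 1) * (yy r n i * x' / (1 + yy r n i * x') ^ 2)
        = yy r n i * (x' - x) * x' / (x * ((1 + yy r n i * x') * (1 + yy r n i * x'))) := by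
      have h1 : (0 : ℝ) < 1 + yy r n i * x' := by positivity
      field_simp
    rw [e1, e2, div_le_div_iff₀ (by positivity) (by positivity)]
    have h1 : x * (1 + yy r n i * x') ≤ x' * (1 + yy r n i * x) := by nlinarith
    have h3 : 0 ≤ yy r n i * (x' - x) * x * (1 + yy r n i * x') := by
      have : 0 ≤ x' - x := by linarith
      positivity
    nlinarith [mul_le_mul_of_nonneg_left h1 h3]

theorem exi : ExiSt := by
  intro r n k hk hkn
  have hn : 0 < n := by omega
  have : Nonempty (Fin n) := ⟨⟨0, hn⟩⟩
  have hy := yy_pos r n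
  set S : ℝ := ∑ i, yy r n i with hS
  set T : ℝ := ∑ i, 1 / yy r n i with hT
  have hSpos : 0 < S := Finset.sum_pos (fun i _ => hy i) Finset.univ_nonempty
  have hTpos : 0 < T := Finset.sum_pos (fun i _ => one_div_pos.2 (hy i)) Finset.univ_nonempty
  have hcont : ContinuousOn (L r n) (Set.Ioi 0) := by
    unfold L pp
    apply continuousOn_finsetSum
    intro i _
    apply ContinuousOn.div
    · fun_prop
    · fun_prop
    · intro x hx
      have : (0 : ℝ) < x := hx
      have := mul_pos (hy i) this
      positivity
  have ha : L r n (1 / S) ≤ k := by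
    have h1 : L r n (1 / S) ≤ ∑ i, yy r n i * (1 / S) := by
      unfold L pp
      apply Finset.sum_le_sum
      intro i _
      apply div_le_self
      · have := hy i; positivity
      · have := hy i
        have : 0 < yy r n i * (1 / S) := by positivity
        linarith
    rw [← Finset.sum_mul, ← hS, mul_one_div_cancel hSpos.ne'] at h1
    have : (1 : ℝ) ≤ k := by exact_mod_cast hk
    linarith
  have hb : (k : ℝ) ≤ L r n T := by
    have h1 : (n : ℝ) - L r n T ≤ ∑ i : Fin n, (1 / yy r n i) * (1 / T) := by
      unfold L pp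
      have : (n : ℝ) = ∑ i : Fin n, (1 : ℝ) := by simp
      rw [this, ← Finset.sum_sub_distrib]
      apply Finset.sum_le_sum
      intro i _
      have hyi := hy i
      have e : 1 - yy r n i * T / (1 + yy r n i * T) = 1 / (1 + yy r n i * T) := by
        have : (0 : ℝ) < 1 + yy r n i * T := by positivity
        field_simp
        ring
      rw [e, div_mul_div_comm, one_mul]
      apply one_div_le_one_div_of_le (by positivity)
      linarith
    rw [← Finset.sum_mul, ← hT, mul_one_div_cancel hTpos.ne'] at h1
    have : (k : ℝ) + 1 ≤ n := by exact_mod_cast hkn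
    linarith
  obtain ⟨x, hx, hxk⟩ := isPreconnected_Ioi.intermediate_value
    (show 1 / S ∈ Set.Ioi (0 : ℝ) from one_div_pos.2 hSpos) (show T ∈ Set.Ioi (0 : ℝ) from hTpos)
    hcont ⟨ha, hb⟩
  exact ⟨x, hx, hxk⟩

end Pool.Agent.H43.ATR
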